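import Pool.Agent.H83.MS.Deg

/-!
# The maximal numbers of ovals of the curves which are apolar to a degenerate conic

`d ≥ 4` is an even number and `A` is a non-zero symmetric real `3 × 3` matrix with determinant zero,
that is a degenerate conic (of the dual plane).  We consider the real forms `F` of degree `d` in
three variables without real singular points which satisfy the differential equation of order two
with constant coefficients `∑ A i j ∂_i ∂_j F = 0` (`Apolar`), and the number of the connected
components of their real parts `realPart F`, the set of the points of the real projective plane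
`RP2` at which `F` vanishes, with the topology of a subspace.

* If `A` is indefinite (two real lines; `F` is then the sum of two real forms, each of which depends
  on two variables only), the maximal number of the components is exactly `d ^ 2 / 4`.
* If `A` is semidefinite of rank two (two complex conjugate lines; `F` is the sum of two complex
  conjugate forms), the maximal number of the components is exactly `d / 2`.
* If `A` has rank one (a double line), there is no such form.

In particular no such curve of degree `d ≥ 6` is an M-curve, that is a curve with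
`(d - 1) (d - 2) / 2 + 1` components; for `d = 8` there are at most `16` components and not `22`.
-/

open MvPolynomial Matrix Pool.Agent.H83.MC Pool.Agent.H83.MS

namespace Pool.Agent.Results.MP_b7f146_ag.DegenerateApolar

/-- `F` is a real form of degree `d` without real singular points which satisfies the equation
`∑ A i j ∂_i ∂_j F = 0`. -/
structure Apolar (d : ℕ) (A : Matrix (Fin 3) (Fin 3) ℝ) (F : MvPolynomial (Fin 3) ℝ) : Prop where
  form : F.IsHomogeneous d
  smooth : ∀ v : Fin 3 → ℝ, v ≠ 0 → eval v F = 0 → ∃ i, eval v (pderiv i F) ≠ 0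
  apolar : ∑ i, ∑ j, C (A i j) * pderiv i (pderiv j F) = 0

/-- The quadratic form of `A` takes positive and negative values. -/
def Indefinite (A : Matrix (Fin 3) (Fin 3) ℝ) : Prop :=
  ∃ v w : Fin 3 → ℝ, v ⬝ᵥ A *ᵥ v < 0 ∧ 0 < w ⬝ᵥ A *ᵥ w

/-- The numbers of the connected components of the real parts of the curves. -/
def Numbers (d : ℕ) (A : Matrix (Fin 3) (Fin 3) ℝ) : Set ℕ :=
  {n | ∃ F, Apolar d A F ∧ Nat.card (ConnectedComponents (realPart F)) = n}

theorem apolar_iff {d : ℕ} {A : Matrix (Fin 3) (Fin 3) ℝ} {F : MvPolynomial (Fin 3) ℝ} :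
    Apolar d A F ↔ Ap d A F :=
  ⟨fun h => ⟨h.form, h.smooth, h.apolar⟩, fun h => ⟨h.hom, h.smooth, h.eq⟩⟩

theorem result (d : ℕ) (hd : Even d) (hd4 : 4 ≤ d) (A : Matrix (Fin 3) (Fin 3) ℝ) (hA : A ≠ 0)
    (hsym : A.IsSymm) (hdet : A.det = 0) :
    (∀ F, Apolar d A F → Finite (ConnectedComponents (realPart F))) ∧
    (Indefinite A → IsGreatest (Numbers d A) (d ^ 2 / 4)) ∧
    (¬ Indefinite A → A.rank = 2 → IsGreatest (Numbers d A) (d / 2)) ∧
    (A.rank ≠ 2 → ∀ F, ¬ Apolar d A F) ∧
    (6 ≤ d → ∀ F, Apolar d A F →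
      Nat.card (ConnectedComponents (realPart F)) < (d - 1) * (d - 2) / 2 + 1) := by
  have hset : Numbers d A =
      {n | ∃ F, Ap d A F ∧ Nat.card (ConnectedComponents (realPart F)) = n} := by
    ext n
    constructor
    · rintro ⟨F, hF, h⟩
      exact ⟨F, apolar_iff.1 hF, h⟩
    · rintro ⟨F, hF, h⟩
      exact ⟨F, apolar_iff.2 hF, h⟩
  obtain ⟨h1, h2, h3⟩ := degenerate_max hd hd4 hA hsym hdet
  rw [← hset] at h1 h2
  refine ⟨fun F hF => finite_comp ((apolar_iff.1 hF).curve hd (by omega)), h1, h2,
    fun hr F hF => h3 hr F (apolar_iff.1 hF), fun hd6 F hF => ?_⟩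
  have hle : Nat.card (ConnectedComponents (realPart F)) ≤ d ^ 2 / 4 := by
    have hr : A.rank = 2 := by
      by_contra hr
      exact h3 hr F (apolar_iff.1 hF)
    by_cases hi : Indefinite A
    · exact (h1 hi).2 ⟨F, hF, rfl⟩
    · have h4 := (h2 hi hr).2 ⟨F, hF, rfl⟩
      refine h4.trans ?_
      obtain ⟨k, rfl⟩ := hd
      have e1 : (k + k) ^ 2 / 4 = k ^ 2 := by
        rw [show (k + k) ^ 2 = 4 * k ^ 2 by ring, Nat.mul_div_cancel_left _ (by norm_num)]
      have e2 : (k + k) / 2 = k := by omega
      rw [e1, e2]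
      nlinarith
  refine hle.trans_lt ?_
  obtain ⟨m, rfl⟩ : ∃ m, d = 2 * m + 6 := by
    obtain ⟨k, hk⟩ := hd
    exact ⟨k - 3, by omega⟩
  have e : (2 * m + 6 - 1) * (2 * m + 6 - 2) / 2 = (2 * m + 5) * (m + 2) := by
    rw [show 2 * m + 6 - 1 = 2 * m + 5 by omega, show 2 * m + 6 - 2 = (m + 2) * 2 by omega,
      ← mul_assoc, Nat.mul_div_cancel _ (by norm_num)]
  have e1 : (2 * m + 6) ^ 2 / 4 = (m + 3) ^ 2 := by
    rw [show (2 * m + 6) ^ 2 = 4 * (m + 3) ^ 2 by ring, Nat.mul_div_cancel_left _ (by norm_num)]
  rw [e, e1]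
  nlinarith

end Pool.Agent.Results.MP_b7f146_ag.DegenerateApolar
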