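import Pool.Agent.H3.LC.Reduce

/-!
# Products of real lines minus a convex form are never M-curves

`d` is an even number, `d ≥ 4` (in the problem `d = 8`), `L₁, …, L_d` are real linear forms in three
variables (they may coincide or be proportional), `G` is a real form of degree `d` which is a convex
function on `ℝ³` and `F = L₁ ⋯ L_d - G` has no real singular point.  `realPart F` is the set of
the points of the real projective plane `RP2` at which `F` vanishes, with the topology of a
subspace.

Then the real part of the curve has at most `d (d - 1) / 3` connected components (`18` for octics),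
so the curve is not an M-curve if `d ≥ 6`; moreover every connected component of the set of the
points of `ℝ³` at which `F` is positive is convex.
-/

open MvPolynomial Pool.Agent.H3.LC

namespace Pool.Agent.Results.MP_b7f146_ag.LinesMinusConvexForm

theorem result (d : ℕ) (hd : Even d) (hd4 : 4 ≤ d) (L : Fin d → MvPolynomial (Fin 3) ℝ)
    (hL : ∀ i, (L i).IsHomogeneous 1) (G : MvPolynomial (Fin 3) ℝ) (hG : G.IsHomogeneous d)
    (hconv : ConvexOn ℝ Set.univ (fun v : Fin 3 → ℝ => eval v G))
    (F : MvPolynomial (Fin 3) ℝ) (hF : F = ∏ i, L i - G)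
    (hns : ∀ v : Fin 3 → ℝ, v ≠ 0 → eval v F = 0 → ∃ i, eval v (pderiv i F) ≠ 0) :
    Finite (ConnectedComponents (realPart F)) ∧
      3 * Nat.card (ConnectedComponents (realPart F)) ≤ d * (d - 1) ∧
      (6 ≤ d → Nat.card (ConnectedComponents (realPart F)) < (d - 1) * (d - 2) / 2 + 1) ∧
      ∀ v : Fin 3 → ℝ, Convex ℝ (connectedComponentIn {w : Fin 3 → ℝ | 0 < eval w F} v) := by
  have hGf : ConvexForm (fun v : Fin 3 → ℝ => eval v G) d :=
    ⟨hconv, fun c x => eval_smul_form G hG c x, hd, by omega⟩
  have hGc : Continuous (fun v : Fin 3 → ℝ => eval v G) := MvPolynomial.continuous_eval G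
  have hlast : 6 ≤ d → d * (d - 1) < 3 * ((d - 1) * (d - 2) / 2 + 1) := by
    intro h6
    obtain ⟨k, rfl⟩ := hd
    obtain ⟨j, rfl⟩ : ∃ j, k = j + 3 := ⟨k - 3, by omega⟩
    have e1 : j + 3 + (j + 3) - 1 = 2 * j + 5 := by omega
    have e2 : j + 3 + (j + 3) - 2 = 2 * (j + 2) := by omega
    have e3 : (2 * j + 5) * (2 * (j + 2)) / 2 = (2 * j + 5) * (j + 2) := by
      rw [show (2 * j + 5) * (2 * (j + 2)) = (2 * j + 5) * (j + 2) * 2 by ring]
      exact Nat.mul_div_cancel _ (by norm_num)
    rw [e1, e2, e3]
    nlinarith
  choose g hg using fun i => exists_linear (L i) (hL i)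
  have hFv : ∀ v, eval v F = ∏ i, g i v - eval v G := by
    intro v
    rw [hF, map_sub, map_prod]
    simp only [hg]
  by_cases h0 : ∃ i, g i = 0
  · obtain ⟨i, hi⟩ := h0
    have hF0 : ∀ v, eval v F = - eval v G := by
      intro v
      rw [hFv, Finset.prod_eq_zero (Finset.mem_univ i) (by rw [hi, LinearMap.zero_apply]), zero_sub]
    have hnp : ∀ v, ¬ 0 < eval v F := by
      intro v
      rw [hF0]
      have h : 0 ≤ eval v G := hGf.nonneg v
      linarith
    have hemp : IsEmpty (realPart F) := by
      refine ⟨?_⟩
      rintro ⟨p, v, rfl, hv⟩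
      have hcl := mem_closure_pos F v.1 hv (hns v.1 v.2 hv)
      have : {w : Fin 3 → ℝ | 0 < eval w F} = ∅ := by
        ext w
        simpa using hnp w
      rw [this, closure_empty] at hcl
      exact hcl
    have hemp2 : IsEmpty (ConnectedComponents (realPart F)) := by
      refine ⟨fun c => ?_⟩
      obtain ⟨x, -⟩ := ConnectedComponents.surjective_coe c
      exact hemp.false x
    refine ⟨inferInstance, ?_, ?_, ?_⟩
    · simp
    · intro _
      simp
    · intro v
      rw [connectedComponentIn_eq_empty (F := {w : Fin 3 → ℝ | 0 < eval w F}) (hnp v)]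
      exact convex_empty
  · push Not at h0
    obtain ⟨ι, _, f, c, m, hf, hpair, hm, hsum, hprod⟩ := exists_data g h0
    subst hsum
    have hFv' : ∀ v, eval v F = prodForm f c m v - eval v G := by
      intro v
      rw [hFv, hprod]
    obtain ⟨h1, h2⟩ := comp_bound hf hpair hm hd4 hd hGf hGc hFv' hns
    exact ⟨h1, h2, fun h6 => by have := hlast h6; omega,
      convex_component hm (by omega) hGf hGc hFv'⟩

end Pool.Agent.Results.MP_b7f146_ag.LinesMinusConvexForm
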