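import Pool.Agent.H25.SO.Act
import Pool.Agent.H25.SO.Arr
import Pool.Agent.H25.SO.Defs

/-!
# The symmetry groups of the M-curves of even degree, in particular of degree 8

`F` is a real form in three variables of even degree `d ≥ 6` (in the problem `d = 8`), irreducible
over the real numbers and without real singular points.  `realPart F` is the set of the points of
the real projective plane `RP2` at which `F` vanishes, with the topology of a subspace.  It is
assumed that it has `(d - 1) (d - 2) / 2 + 1` connected components (`22` components if `d = 8`).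

* A projective involution `g` of the plane which preserves the curve preserves exactly `d / 2`
  components, and each of them contains exactly two fixed points of `g`.  So there are at most
  `d / 2` disjoint classes of ovals which are determined by the arrangement (the nesting relation)
  and consist of an odd number of ovals.
* The order of a finite group of projective symmetries of the curve is not divisible by four.
* For `d = 8` the order of such a group divides six, and its elements have orders at most three: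
  it is trivial, cyclic of order two or three, or the symmetric group on three letters.
  A symmetry of order three preserves exactly one component.  So the number of the ovals in a class
  which is determined by the arrangement is not of the form `3 n + 2`; in particular, there are not
  exactly two ovals which contain other ovals.

The proofs: a component is the image of a periodic solution of an ordinary differential equation
on the sphere; invariant auxiliary curves of degree `d - 2` through given points and the theorem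
of Bezout, with multiplicities, bound the number of the pairs of components which are exchanged by
an involution; the orbits of the components are counted.
-/

open MvPolynomial Pool.Agent.H83.MC Pool.Agent.H25.SD

namespace Pool.Agent.Results.MP_b7f146_ag.SymmetryGroups

/-- A map whose cube is a scalar and which is not a scalar has order three modulo scalars. -/
theorem ord_three (g : (Fin 3 → ℝ) ≃ₗ[ℝ] (Fin 3 → ℝ)) {a : ℝ} (h : ∀ v, g (g (g v)) = a • v)
    (hs : ¬ ∃ b : ℝ, ∀ v, g v = b • v) (k : ℕ) :
    (∃ b : ℝ, ∀ v, g^[k] v = b • v) ↔ 3 ∣ k := by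
  have ha : a ≠ 0 := by
    rintro rfl
    have h1 := h (Pi.single 0 1)
    rw [zero_smul, g.map_eq_zero_iff, g.map_eq_zero_iff, g.map_eq_zero_iff] at h1
    have := congrFun h1 0
    simp at this
  have h3 : ∀ (q : ℕ) (v : Fin 3 → ℝ), g^[3 * q] v = a ^ q • v := by
    intro q
    induction q with
    | zero => intro v; simp
    | succ q ih =>
      intro v
      rw [Nat.mul_succ, Function.iterate_add_apply]
      have h4 : g^[3] v = a • v := h v
      rw [h4, ih, smul_smul, pow_succ]
  have hdiv : ∀ (r q : ℕ), (∃ b : ℝ, ∀ v, g^[r + 3 * q] v = b • v) →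
      ∃ b : ℝ, ∀ v, g^[r] v = b • v := by
    rintro r q ⟨b, hb⟩
    refine ⟨(a ^ q)⁻¹ * b, fun v => ?_⟩
    have h4 := hb v
    rw [Function.iterate_add_apply, h3] at h4
    have h5 : ∀ (r : ℕ) (c : ℝ) (w : Fin 3 → ℝ), g^[r] (c • w) = c • g^[r] w := by
      intro r c
      induction r with
      | zero => intro w; rfl
      | succ r ih => intro w; rw [Function.iterate_succ_apply', ih, map_smul,
          Function.iterate_succ_apply']
    rw [h5] at h4
    rw [mul_smul, ← h4, inv_smul_smul₀ (pow_ne_zero _ ha)]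
  constructor
  · intro hk
    have hr : k = k % 3 + 3 * (k / 3) := (Nat.mod_add_div k 3).symm
    rw [hr] at hk
    obtain ⟨b, hb⟩ := hdiv _ _ hk
    have h3' := Nat.mod_lt k (show 0 < 3 by norm_num)
    rcases (show k % 3 = 0 ∨ k % 3 = 1 ∨ k % 3 = 2 by omega) with h0 | h1 | h2
    · exact Nat.dvd_of_mod_eq_zero h0
    · rw [h1] at hb
      exact absurd ⟨b, hb⟩ hs
    · rw [h2] at hb
      have hb' : ∀ v, g (g v) = b • v := hb
      exfalso
      apply hs
      have hb0 : b ≠ 0 := by
        rintro rfl
        have h4 := hb' (Pi.single 0 1)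
        rw [zero_smul, g.map_eq_zero_iff, g.map_eq_zero_iff] at h4
        have := congrFun h4 0
        simp at this
      refine ⟨b⁻¹ * a, fun v => ?_⟩
      have h4 := h v
      rw [hb'] at h4
      rw [mul_smul, ← h4, inv_smul_smul₀ hb0]
  · rintro ⟨q, rfl⟩
    exact ⟨a ^ q, h3 q⟩

theorem result (d : ℕ) (hd : Even d) (hd6 : 6 ≤ d) (F : MvPolynomial (Fin 3) ℝ)
    (hF : F.IsHomogeneous d) (hirr : Irreducible F)
    (hns : ∀ v : Fin 3 → ℝ, v ≠ 0 → eval v F = 0 → ∃ i, eval v (pderiv i F) ≠ 0)
    (hM : Nat.card (ConnectedComponents (realPart F)) = (d - 1) * (d - 2) / 2 + 1) :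
    (∀ g : (Fin 3 → ℝ) ≃ₗ[ℝ] (Fin 3 → ℝ), IsSymm F g → (∃ a : ℝ, ∀ v, g (g v) = a • v) →
      (¬ ∃ a : ℝ, ∀ v, g v = a • v) →
      {κ : ConnectedComponents (realPart F) | Pres g κ}.ncard = d / 2 ∧
        (∀ κ : ConnectedComponents (realPart F), Pres g κ →
          {p | Lies κ p ∧ gmap g p = p}.ncard = 2) ∧
        ∀ (m : ℕ) (Q : Fin m → ConnectedComponents (realPart F) → Prop), (∀ i, ByArr (Q i)) →
          (∀ i j κ, Q i κ → Q j κ → i = j) → (∀ i, Odd {κ | Q i κ}.ncard) → m ≤ d / 2) ∧
    (∀ (Γ : Type) [Group Γ] [Finite Γ] (φ : Γ → (Fin 3 → ℝ) ≃ₗ[ℝ] (Fin 3 → ℝ)),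
      ProjAct Γ F φ → ¬ 4 ∣ Nat.card Γ) ∧
    (d = 8 →
      (∀ (Γ : Type) [Group Γ] [Finite Γ] (φ : Γ → (Fin 3 → ℝ) ≃ₗ[ℝ] (Fin 3 → ℝ)),
        ProjAct Γ F φ → Nat.card Γ ∣ 6 ∧ ∀ x : Γ, orderOf x ≤ 3) ∧
      ∀ g : (Fin 3 → ℝ) ≃ₗ[ℝ] (Fin 3 → ℝ), IsSymm F g →
        (∃ a : ℝ, ∀ v, g (g (g v)) = a • v) → (¬ ∃ a : ℝ, ∀ v, g v = a • v) →
        {κ : ConnectedComponents (realPart F) | Pres g κ}.ncard = 1 ∧
          (∀ Q : ConnectedComponents (realPart F) → Prop, ByArr Q → {κ | Q κ}.ncard % 3 ≠ 2) ∧
          {κ : ConnectedComponents (realPart F) | ∃ κ', Surr κ κ'}.ncard ≠ 2) := by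
  have C : Pool.Agent.H25.SO.Curve F d := ⟨hF, hd, by omega, hns⟩
  have hA : ∀ {Γ : Type} [Group Γ] {φ : Γ → (Fin 3 → ℝ) ≃ₗ[ℝ] (Fin 3 → ℝ)},
      ProjAct Γ F φ → Pool.Agent.H25.SO.ProjAct Γ F φ := fun A => ⟨A.mul, A.faithful, A.symm⟩
  obtain ⟨k, hk⟩ := hd
  have hdk : d = 2 * k := by omega
  have hk3 : 3 ≤ k := by omega
  refine ⟨?_, ?_, ?_⟩
  · rintro g ⟨c, hg⟩ ⟨a, ha⟩ hs
    have hd2 : d / 2 = k := by omega
    rw [hd2]
    obtain ⟨h1, h2⟩ := Pool.Agent.H25.SO.struct_gen C hirr hk3 hdk hM g hg ha hs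
    exact ⟨h1, h2, fun m Q hQ hdis hodd =>
      Pool.Agent.H25.SO.class_two C hirr hk3 hdk hM g hg ha hs m Q hQ hdis hodd⟩
  · intro Γ _ _ φ A
    exact (hA A).not_four C hirr hk3 hdk hM
  · rintro rfl
    refine ⟨fun Γ _ _ φ A => (hA A).card_dvd C hirr hM, ?_⟩
    rintro g ⟨c, hg⟩ ⟨a, ha⟩ hs
    have hord := ord_three g ha hs
    have h3 := Pool.Agent.H25.SO.class_three C hirr hM g hg hord
    refine ⟨Pool.Agent.H25.SO.order_three C hirr hM g hg hord, h3, fun h2 => ?_⟩
    refine h3 (fun κ => ∃ κ', Surr κ κ') ?_ (by rw [h2])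
    intro e he κ
    constructor
    · rintro ⟨κ', h3⟩
      exact ⟨e.symm κ', (he κ (e.symm κ')).1 (by rw [e.apply_symm_apply]; exact h3)⟩
    · rintro ⟨κ', h3⟩
      exact ⟨e κ', (he _ _).2 h3⟩

end Pool.Agent.Results.MP_b7f146_ag.SymmetryGroups
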