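import Pool.Agent.H83.MC.Big
import Pool.Agent.H83.MC.Red

/-!
# M-curves of even degree have no projective symmetries of large order

`d` is an even number, `d ≥ 8` (in the problem `d = 8`), and `F` is a real form of degree `d` in
three variables without real singular points.  `realPart F` is the set of the points of the real
projective plane `RP2` at which `F` vanishes, with the topology of a subspace.

If `realPart F` has `(d - 1) (d - 2) / 2 + 1` connected components (for `d = 8` these are `22`
components), and `g` is an invertible linear map with `F ∘ g = c F` whose class in the projective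
linear group has finite order `n`, then `n ≤ d / 2`.
-/

open MvPolynomial Pool.Agent.H83.MC

namespace Pool.Agent.Results.MP_b7f146_ag.SymmetryOrder

theorem result (d : ℕ) (hd : Even d) (hd8 : 8 ≤ d) (F : MvPolynomial (Fin 3) ℝ)
    (hF : F.IsHomogeneous d)
    (hns : ∀ v : Fin 3 → ℝ, v ≠ 0 → eval v F = 0 → ∃ i, eval v (pderiv i F) ≠ 0)
    (hM : Nat.card (ConnectedComponents (realPart F)) = (d - 1) * (d - 2) / 2 + 1)
    (g : (Fin 3 → ℝ) ≃ₗ[ℝ] (Fin 3 → ℝ)) (c : ℝ) (hg : ∀ v, eval (g v) F = c * eval v F)
    (n : ℕ) (hn : 0 < n) (hord : ∀ k : ℕ, (∃ a : ℝ, ∀ v, g^[k] v = a • v) ↔ n ∣ k) :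
    2 * n ≤ d := by
  by_contra hlt
  have hdn : d < 2 * n := by omega
  obtain ⟨F', S, ⟨f⟩⟩ := exists_setup hF hd hns (by omega) hdn g c hg hord
  have hcard := card_components f
  rw [hM] at hcard
  rcases (show (n + 2 ≤ d ∨ d < n) ∨ (n + 1 = d ∨ n + 0 = d) by omega) with h | h | h
  · exact S.main (by omega) h hcard
  · exact S.main_big hd8 le_rfl h hcard
  · exact S.main_big hd8 (by omega) h hcard

end Pool.Agent.Results.MP_b7f146_ag.SymmetryOrder
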